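import Mathlib
import Pool.Agent.Helper467_GG.Chain

set_option autoImplicit false

/-!
# MP_cc0654_lc, Q1 and Q2: under CH there is a subgroup of `ℤ^ℕ` of size continuum satisfying
`S₁(B_Ω, B_Γ)`, and also `S₁(Ω, Γ)`

The group is the union of an increasing chain of length `ω₁` of countable groups. The conditions
used in the construction (`Pool.Agent.Helper467_GG.Cond`) are pairs of a countable group and a
countable family of copies of the Cantor space, from which later elements of the group are taken.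
The step of the construction (`Pool.Helper467GG.Cond.exists_shrink`) shrinks the Cantor sets by a
fusion argument (`Pool.Helper467GG.afl`) based on the Baire category theorem in finite powers of the
Cantor space.
-/

namespace Pool.Agent.Results.MP_cc0654_lc.GammaSubgroup

open Set Filter Topology

/-- `𝒰` is an ω-cover of `X`: `X` is not a member of `𝒰`, and every finite subset of `X` is
contained in a member of `𝒰`. -/
def IsOmegaCover {X : Type} (𝒰 : Set (Set X)) : Prop :=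
  univ ∉ 𝒰 ∧ ∀ F : Set X, F.Finite → ∃ U ∈ 𝒰, F ⊆ U

/-- `𝒰` is a γ-cover of `X`: it is infinite, and every point of `X` belongs to all but finitely many
members of `𝒰`. -/
def IsGammaCover {X : Type} (𝒰 : Set (Set X)) : Prop :=
  𝒰.Infinite ∧ ∀ x : X, {U | U ∈ 𝒰 ∧ x ∉ U}.Finite

/-- `Ω`: the open ω-covers of `X`. -/
def Omega (X : Type) [TopologicalSpace X] : Set (Set (Set X)) :=
  {𝒰 | (∀ U ∈ 𝒰, IsOpen U) ∧ IsOmegaCover 𝒰}

/-- `Γ`: the open γ-covers of `X`. -/
def Gamma (X : Type) [TopologicalSpace X] : Set (Set (Set X)) :=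
  {𝒰 | (∀ U ∈ 𝒰, IsOpen U) ∧ IsGammaCover 𝒰}

/-- `B_Ω`: the countable ω-covers of `X` by Borel sets. -/
def BOmega (X : Type) [TopologicalSpace X] : Set (Set (Set X)) :=
  {𝒰 | 𝒰.Countable ∧ (∀ U ∈ 𝒰, @MeasurableSet X (borel X) U) ∧ IsOmegaCover 𝒰}

/-- `B_Γ`: the countable γ-covers of `X` by Borel sets. -/
def BGamma (X : Type) [TopologicalSpace X] : Set (Set (Set X)) :=
  {𝒰 | 𝒰.Countable ∧ (∀ U ∈ 𝒰, @MeasurableSet X (borel X) U) ∧ IsGammaCover 𝒰}

/-- `S₁(𝒜, ℬ)`. -/
def S1 {X : Type} (𝒜 ℬ : Set (Set (Set X))) : Prop :=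
  ∀ 𝒰 : ℕ → Set (Set X), (∀ n, 𝒰 n ∈ 𝒜) →
    ∃ U : ℕ → Set X, (∀ n, U n ∈ 𝒰 n) ∧ range U ∈ ℬ

/-- If no `U n` is the whole space, and each point belongs to almost all `U n`, then
`{U n : n ∈ ℕ}` is a γ-cover. -/
theorem isGammaCover_range {X : Type} (U : ℕ → Set X) (h1 : ∀ n, U n ≠ univ)
    (h2 : ∀ x, ∀ᶠ n in atTop, x ∈ U n) : IsGammaCover (range U) := by
  constructor
  · intro hfin
    obtain ⟨V, hV⟩ : ∃ V : Set X, ∃ᶠ n in atTop, U n = V := by
      by_contra hcon
      push Not at hcon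
      have h3 : ∀ᶠ n in atTop, ∀ V ∈ range U, U n ≠ V :=
        (eventually_all_finite hfin).2 fun V _ => hcon V
      obtain ⟨n, hn⟩ := h3.exists
      exact hn (U n) ⟨n, rfl⟩ rfl
    obtain ⟨n, hn⟩ := hV.exists
    apply h1 n
    rw [hn]
    refine eq_univ_of_forall fun x => ?_
    obtain ⟨m, hm1, hm2⟩ := (hV.and_eventually (h2 x)).exists
    rwa [hm1] at hm2
  · intro x
    have h3 : {n | x ∉ U n}.Finite := by
      have := h2 x
      rw [← Nat.cofinite_eq_atTop] at this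
      exact this
    refine (h3.image U).subset ?_
    rintro _ ⟨⟨n, rfl⟩, hn⟩
    exact ⟨n, hn, rfl⟩

/-- The selection property from its combinatorial form. -/
theorem s1_of_combinatorial (G : AddSubgroup (ℕ → ℤ))
    (hG : ∀ U : ℕ → ℕ → Set (ℕ → ℤ), (∀ n i, MeasurableSet (U n i)) →
      (∀ n, ∀ E : Set (ℕ → ℤ), E.Finite → E ⊆ G → ∃ i, E ⊆ U n i) →
        ∃ f : ℕ → ℕ, ∀ g ∈ G, ∀ᶠ n in atTop, g ∈ U n (f n)) :
    S1 (BOmega G) (BGamma G) := by
  intro 𝒰 h𝒰
  have hne : ∀ n, (𝒰 n).Nonempty := fun n => by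
    obtain ⟨U, hU, _⟩ := (h𝒰 n).2.2.2 ∅ finite_empty
    exact ⟨U, hU⟩
  have henum : ∀ n, ∃ V : ℕ → Set G, 𝒰 n = range V := fun n =>
    (h𝒰 n).1.exists_eq_range (hne n)
  choose V hV using henum
  have hVmem : ∀ n i, V n i ∈ 𝒰 n := fun n i => by rw [hV n]; exact ⟨i, rfl⟩
  have hborel : ∀ n i, ∃ W : Set (ℕ → ℤ), MeasurableSet W ∧ Subtype.val ⁻¹' W = V n i := by
    intro n i
    have h1 : @MeasurableSet G (borel G) (V n i) := (h𝒰 n).2.1 _ (hVmem n i)
    have h2 : borel G = (borel (ℕ → ℤ)).comap (Subtype.val : G → (ℕ → ℤ)) :=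
      borel_comap
    rw [h2] at h1
    obtain ⟨W, hW, hWV⟩ := h1
    refine ⟨W, ?_, hWV⟩
    rwa [← BorelSpace.measurable_eq (α := ℕ → ℤ)] at hW
  choose W hW1 hW2 using hborel
  obtain ⟨f, hf⟩ := hG W hW1 (by
    intro n E hE hEG
    obtain ⟨U, hU, hEU⟩ := (h𝒰 n).2.2.2 (Subtype.val ⁻¹' E)
      (hE.preimage Subtype.val_injective.injOn)
    rw [hV n] at hU
    obtain ⟨i, rfl⟩ := hU
    refine ⟨i, fun z hz => ?_⟩
    have : (⟨z, hEG hz⟩ : G) ∈ V n i := hEU hz
    rw [← hW2] at this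
    exact this)
  refine ⟨fun n => V n (f n), fun n => hVmem n (f n), countable_range _, ?_, ?_⟩
  · rintro _ ⟨n, rfl⟩
    exact (h𝒰 n).2.1 _ (hVmem n (f n))
  · refine isGammaCover_range _ (fun n h => ?_) (fun x => ?_)
    · exact (h𝒰 n).2.2.1 (h ▸ hVmem n (f n))
    · filter_upwards [hf x.1 x.2] with n hn
      rw [← hW2]
      exact hn

/-- In a second countable space every open ω-cover has a countable ω-subcover. -/
theorem exists_countable_subcover {X : Type} [TopologicalSpace X] [SecondCountableTopology X]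
    {𝒰 : Set (Set X)} (h : 𝒰 ∈ Omega X) : ∃ 𝒱 ⊆ 𝒰, 𝒱.Countable ∧ IsOmegaCover 𝒱 := by
  classical
  obtain ⟨hop, huniv, hcov⟩ := h
  have hb := TopologicalSpace.isBasis_countableBasis X
  let 𝒮 : Set (Finset (Set X)) := {S | ↑S ⊆ TopologicalSpace.countableBasis X}
  have hcount : Countable (TopologicalSpace.countableBasis X) :=
    (TopologicalSpace.countable_countableBasis X).to_subtype
  have h𝒮 : 𝒮.Countable := by
    refine ((countable_univ (α := Finset (TopologicalSpace.countableBasis X))).image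
      fun S => S.image Subtype.val).mono ?_
    intro S hS
    refine ⟨S.subtype _, mem_univ _, ?_⟩
    ext U
    simp only [Finset.mem_image, Finset.mem_subtype, Subtype.exists, exists_and_left,
      exists_prop, exists_eq_right_right]
    exact ⟨fun h => h.1, fun h => ⟨h, hS h⟩⟩
  have hUne : 𝒰.Nonempty := by
    obtain ⟨U, hU, _⟩ := hcov ∅ finite_empty
    exact ⟨U, hU⟩
  let ch : Finset (Set X) → Set X := fun S =>
    if h : ∃ U ∈ 𝒰, ⋃₀ (S : Set (Set X)) ⊆ U then Classical.choose h else hUne.some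
  have hch : ∀ S, ch S ∈ 𝒰 := by
    intro S
    by_cases h : ∃ U ∈ 𝒰, ⋃₀ (S : Set (Set X)) ⊆ U
    · simp only [ch, dif_pos h]
      exact (Classical.choose_spec h).1
    · simp only [ch, dif_neg h]
      exact hUne.some_mem
  refine ⟨ch '' 𝒮, ?_, h𝒮.image _, ?_, ?_⟩
  · rintro _ ⟨S, _, rfl⟩
    exact hch S
  · rintro ⟨S, _, hS⟩
    exact huniv (hS ▸ hch S)
  · intro F hF
    obtain ⟨U, hU, hFU⟩ := hcov F hF
    have hx : ∀ x : X, x ∈ F → ∃ B ∈ TopologicalSpace.countableBasis X, x ∈ B ∧ B ⊆ U :=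
      fun x hxF => hb.exists_subset_of_mem_open (hFU hxF) (hop U hU)
    choose! B hB1 hB2 hB3 using hx
    let S : Finset (Set X) := hF.toFinset.image B
    have hS : S ∈ 𝒮 := by
      intro V hV
      obtain ⟨x, hx, rfl⟩ := Finset.mem_image.1 (Finset.mem_coe.1 hV)
      exact hB1 x (hF.mem_toFinset.1 hx)
    have hSU : ∃ U ∈ 𝒰, ⋃₀ (S : Set (Set X)) ⊆ U := by
      refine ⟨U, hU, ?_⟩
      rintro z ⟨V, hV, hz⟩
      obtain ⟨x, hx, rfl⟩ := Finset.mem_image.1 (Finset.mem_coe.1 hV)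
      exact hB3 x (hF.mem_toFinset.1 hx) hz
    refine ⟨ch S, ⟨S, hS, rfl⟩, ?_⟩
    have h1 : ⋃₀ (S : Set (Set X)) ⊆ ch S := by
      simp only [ch, dif_pos hSU]
      exact (Classical.choose_spec hSU).2
    intro x hx
    exact h1 ⟨B x, Finset.mem_coe.2 (Finset.mem_image_of_mem B (hF.mem_toFinset.2 hx)), hB2 x hx⟩

/-- For second countable spaces, `S₁(B_Ω, B_Γ)` implies `S₁(Ω, Γ)`. -/
theorem s1_open_of_borel {X : Type} [TopologicalSpace X] [SecondCountableTopology X]
    (h : S1 (BOmega X) (BGamma X)) : S1 (Omega X) (Gamma X) := by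
  intro 𝒰 h𝒰
  choose 𝒱 hsub hcount hom using fun n => exists_countable_subcover (h𝒰 n)
  obtain ⟨U, hU, hrange⟩ := h 𝒱 fun n => ⟨hcount n, fun V hV => by
    exact MeasurableSpace.measurableSet_generateFrom ((h𝒰 n).1 V (hsub n hV)), hom n⟩
  refine ⟨U, fun n => hsub n (hU n), ?_, hrange.2.2⟩
  rintro _ ⟨n, rfl⟩
  exact (h𝒰 n).1 _ (hsub n (hU n))

/-- Under CH there is a subgroup of `ℤ^ℕ` of cardinality `𝔠` which satisfies `S₁(B_Ω, B_Γ)`, and
also `S₁(Ω, Γ)`. -/
theorem result (hCH : (Cardinal.continuum : Cardinal.{0}) = Cardinal.aleph 1) :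
    ∃ G : AddSubgroup (ℕ → ℤ), Cardinal.mk G = Cardinal.continuum ∧
      S1 (BOmega G) (BGamma G) ∧ S1 (Omega G) (Gamma G) := by
  have hι : Continuous (fun (y : ℕ → Bool) (n : ℕ) => if y n then (1 : ℤ) else 0) := by
    refine continuous_pi fun n => ?_
    exact (continuous_of_discreteTopology (f := fun b : Bool => if b then (1 : ℤ) else 0)).comp
      (continuous_apply n)
  have hι' : Function.Injective (fun (y : ℕ → Bool) (n : ℕ) => if y n then (1 : ℤ) else 0) := by
    intro y y' h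
    funext n
    have := congrFun h n
    cases hy : y n <;> cases hy' : y' n <;> simp_all
  obtain ⟨G, hG1, hG2⟩ := Pool.Helper467GG.exists_group hCH _ hι hι'
  refine ⟨G.toAddSubgroup, le_antisymm ?_ hG1, ?_⟩
  · calc Cardinal.mk G.toAddSubgroup ≤ Cardinal.mk (ℕ → ℤ) := Cardinal.mk_subtype_le _
      _ = Cardinal.continuum := by simp
  · have h := s1_of_combinatorial G.toAddSubgroup hG2
    have : SecondCountableTopology G.toAddSubgroup :=
      TopologicalSpace.Subtype.secondCountableTopology (G.toAddSubgroup : Set (ℕ → ℤ))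
    exact ⟨h, s1_open_of_borel h⟩

end Pool.Agent.Results.MP_cc0654_lc.GammaSubgroup
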